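import Pool.Agent.V5helper60.GM.Stm3
import Mathlib.NumberTheory.NumberField.Cyclotomic.Galois

/-!
# Project GM, job LAY: the layers of the cyclotomic `ℤ_p`-extension of `ℚ` exist
-/

set_option autoImplicit false

namespace Pool.Agent.V5helper65.GM

open IntermediateField Module Pool.Agent.Q60.MU Pool.Agent.W5h77.MB

/-- A finite commutative group of order `p ^ m * (p - 1)` has a subgroup of order `p - 1`. -/
theorem exists_sub {G : Type} [CommGroup G] [Finite G] {p m : ℕ} (hp : p.Prime)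
    (h : Nat.card G = p ^ m * (p - 1)) : ∃ H : Subgroup G, Nat.card H = p - 1 := by
  have hf : Fact p.Prime := ⟨hp⟩
  obtain ⟨P⟩ : Nonempty (Sylow p G) := inferInstance
  have hPc : Nat.card P = p ^ m := by
    rw [Sylow.card_eq_multiplicity, h]
    have h1 : p - 1 ≠ 0 := by
      have := hp.two_le
      omega
    have h2 : ¬ p ∣ p - 1 := by
      intro hd
      have := Nat.le_of_dvd (Nat.pos_of_ne_zero h1) hd
      have := hp.two_le
      omega
    rw [Nat.factorization_mul (pow_ne_zero _ hp.ne_zero) h1, Finsupp.add_apply,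
      Nat.Prime.factorization_pow hp, Finsupp.single_eq_same,
      Nat.factorization_eq_zero_of_not_dvd h2, add_zero]
  obtain ⟨H, hH⟩ := Subgroup.exists_right_complement'_of_coprime (N := (P : Subgroup G))
    P.card_coprime_index
  refine ⟨H, ?_⟩
  have h3 := hH.card_mul_card
  have h4 : Nat.card (P : Subgroup G) = p ^ m := hPc
  rw [h4, h] at h3
  exact Nat.eq_of_mul_eq_mul_left (pow_pos hp.pos m) h3

theorem t_LAY : Pool.Agent.V5helper60.GM.S_LAY := by
  intro p hp _ m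
  have hf : Fact p.Prime := ⟨hp⟩
  have hne : p ^ (m + 1) ≠ 0 := (pow_pos hp.pos _).ne'
  have hnz : NeZero (p ^ (m + 1)) := ⟨hne⟩
  obtain ⟨ζ, hζ⟩ := HasEnoughRootsOfUnity.exists_primitiveRoot Qb (p ^ (m + 1))
  have hle : adjoin ℚ {ζ} ≤ adjoin ℚ {z : Qb | z ^ p ^ (m + 1) = 1} := by
    rw [adjoin_le_iff]
    rintro z rfl
    exact subset_adjoin _ _ hζ.pow_eq_one
  have hcyc : IsCyclotomicExtension {p ^ (m + 1)} ℚ (adjoin ℚ {ζ}) :=
    hζ.intermediateField_adjoin_isCyclotomicExtension ℚ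
  have hfd : FiniteDimensional ℚ (adjoin ℚ {ζ}) :=
    IsCyclotomicExtension.finiteDimensional {p ^ (m + 1)} ℚ _
  have hgal : IsGalois ℚ (adjoin ℚ {ζ}) := IsCyclotomicExtension.isGalois {p ^ (m + 1)} ℚ _
  have hdeg : finrank ℚ (adjoin ℚ {ζ}) = p ^ m * (p - 1) := by
    rw [IsCyclotomicExtension.finrank (n := p ^ (m + 1)) (adjoin ℚ {ζ})
      (Polynomial.cyclotomic.irreducible_rat (pow_pos hp.pos _)), Nat.totient_prime_pow_succ hp]
  have hcard : Nat.card Gal(adjoin ℚ {ζ}/ℚ) = p ^ m * (p - 1) := by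
    rw [IsGalois.card_aut_eq_finrank, hdeg]
  have hcomm : ∀ σ τ : Gal(adjoin ℚ {ζ}/ℚ), σ * τ = τ * σ := by
    have h1 := IsCyclotomicExtension.isMulCommutative {p ^ (m + 1)} ℚ (adjoin ℚ {ζ})
    exact fun σ τ => h1.is_comm.comm σ τ
  let _ : CommGroup Gal(adjoin ℚ {ζ}/ℚ) :=
    { (inferInstance : Group Gal(adjoin ℚ {ζ}/ℚ)) with mul_comm := hcomm }
  obtain ⟨H, hH⟩ := exists_sub (G := Gal(adjoin ℚ {ζ}/ℚ)) hp hcard
  refine ⟨lift (fixedField H), ?_, m + 1, (lift_le _).trans hle⟩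
  have h1 : finrank ℚ (lift (fixedField H)) = finrank ℚ (fixedField H) :=
    (liftAlgEquiv (fixedField H)).toLinearEquiv.finrank_eq.symm
  rw [h1]
  have h2 := finrank_mul_finrank ℚ (fixedField H) (adjoin ℚ {ζ})
  rw [finrank_fixedField_eq_card, hH, hdeg] at h2
  have h3 : 0 < p - 1 := by
    have := hp.two_le
    omega
  exact Nat.eq_of_mul_eq_mul_right h3 h2

end Pool.Agent.V5helper65.GM
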